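import Pool.Agent.K9h24.FourB

/-!
# MP_d5a1e1_nt: how small can a bounded representation function of order `h` be?

For every `h ≥ 2` every asymptotic basis `A` of order `h` has `r_{A,h}(n) ≥ 4` for infinitely many
`n`.  More generally, with `c_h = 1 - 1 / C(h, ⌊h/2⌋)`, the gap between the lower and the upper
limit of `r_{A,h}` is at least `√l + √c_h ≤ √g`, and there are versions with densities.
-/

set_option autoImplicit false

open Filter Topology

namespace Pool.Agent.Results.MP_d5a1e1_nt.FourRepresentations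

/-- the unordered representation function `r_{A,h}(n)` -/
noncomputable def r (A : Set ℕ) (h n : ℕ) : ℕ :=
  Set.ncard {s : Multiset ℕ | Multiset.card s = h ∧ (∀ a ∈ s, a ∈ A) ∧ s.sum = n}

/-- `A` is an asymptotic basis of order `h`: all large `n` are sums of `h` elements of `A` -/
def IsAsymptoticBasis (A : Set ℕ) (h : ℕ) : Prop :=
  ∃ N : ℕ, ∀ n : ℕ, N ≤ n → ∃ s : Multiset ℕ, Multiset.card s = h ∧ (∀ a ∈ s, a ∈ A) ∧ s.sum = n

/-- the upper density of a set of natural numbers -/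
noncomputable def upperDensity (B : Set ℕ) : ℝ :=
  limsup (fun N : ℕ => ((B ∩ Set.Iio N).ncard : ℝ) / N) atTop

/-- the lower density of a set of natural numbers -/
noncomputable def lowerDensity (B : Set ℕ) : ℝ :=
  liminf (fun N : ℕ => ((B ∩ Set.Iio N).ncard : ℝ) / N) atTop

/-- the constant `c_h = 1 - 1 / C(h, ⌊h/2⌋)` -/
noncomputable def c (h : ℕ) : ℝ := 1 - 1 / (h.choose (h / 2) : ℝ)

open Pool.Agent.K9h24.Four

lemma quot_nonneg (B : Set ℕ) (N : ℕ) : (0 : ℝ) ≤ ((B ∩ Set.Iio N).ncard : ℝ) / N := by positivity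

lemma quot_le_one (B : Set ℕ) (N : ℕ) : ((B ∩ Set.Iio N).ncard : ℝ) / N ≤ 1 :=
  div_le_one_of_le₀ (cnt_le B N) (Nat.cast_nonneg N)

lemma quot_tendsto {B : Set ℕ} {N₀ : ℕ} (h : ∀ n, N₀ ≤ n → n ∉ B) :
    Tendsto (fun N : ℕ => ((B ∩ Set.Iio N).ncard : ℝ) / N) atTop (𝓝 0) := by
  have h1 : ∀ N : ℕ, ((B ∩ Set.Iio N).ncard : ℝ) / N ≤ (N₀ : ℝ) / N := by
    intro N
    apply div_le_div_of_nonneg_right _ (Nat.cast_nonneg N)
    have h2 : (B ∩ Set.Iio N) ⊆ Set.Iio N₀ := by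
      rintro n ⟨hn, _⟩
      rw [Set.mem_Iio]
      by_contra hcon
      exact h n (by omega) hn
    have h3 := Set.ncard_le_ncard h2 (Set.finite_Iio N₀)
    rw [Set.ncard_Iio_nat] at h3
    exact_mod_cast h3
  exact squeeze_zero (quot_nonneg B) h1 (tendsto_const_div_atTop_nhds_zero_nat _)

lemma upper_zero {B : Set ℕ} {N₀ : ℕ} (h : ∀ n, N₀ ≤ n → n ∉ B) : upperDensity B = 0 :=
  (quot_tendsto h).limsup_eq

lemma lower_zero {B : Set ℕ} {N₀ : ℕ} (h : ∀ n, N₀ ≤ n → n ∉ B) : lowerDensity B = 0 :=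
  (quot_tendsto h).liminf_eq

/-- the density form of the gap -/
theorem density_gap (h : ℕ) (hh : 2 ≤ h) (A : Set ℕ) (hA : A.Infinite) (hb : ∃ G, ∀ n, r A h n ≤ G)
    (l g : ℕ) (hl : 1 ≤ l) (hlg : l ≤ g)
    (hd : upperDensity {n | r A h n < l} < 1 - ((g : ℝ) + l - c h) ^ 2 / (4 * g * l)) :
    0 < lowerDensity {n | g < r A h n} := by
  obtain ⟨G, hG⟩ := hb
  obtain ⟨d, hd1, hd2⟩ := exists_between hd
  have hl0 : (1 : ℝ) ≤ l := by exact_mod_cast hl
  have hlg0 : (l : ℝ) ≤ g := by exact_mod_cast hlg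
  have hg0 : (1 : ℝ) ≤ g := hl0.trans hlg0
  have hcnt : ∀ᶠ N : ℕ in atTop, (cnt {n | r A h n < l} N : ℝ) ≤ d * N := by
    have h1 : ∀ᶠ N : ℕ in atTop, (({n | r A h n < l} ∩ Set.Iio N).ncard : ℝ) / N < d := by
      exact eventually_lt_of_limsup_lt hd1 (isBoundedUnder_of ⟨1, fun N => quot_le_one _ N⟩)
    filter_upwards [h1, eventually_gt_atTop 0] with N h2 h3
    have h4 : (0 : ℝ) < N := by exact_mod_cast h3
    rw [div_lt_iff₀ h4] at h2
    exact h2.le
  -- the total margin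
  obtain ⟨ρ, hρ⟩ : ∃ ρ : ℝ, ρ = l * g - ((l : ℝ) + g - c h) ^ 2 / 4 - l * g * d := ⟨_, rfl⟩
  have hρ0 : 0 < ρ := by
    rw [hρ]
    have h1 : ((g : ℝ) + l - c h) ^ 2 / (4 * g * l) * (l * g) = ((l : ℝ) + g - c h) ^ 2 / 4 := by
      field_simp
      ring
    have h2 : 0 < (1 - ((g : ℝ) + l - c h) ^ 2 / (4 * g * l) - d) * (l * g) := by
      apply mul_pos (by linarith) (by positivity)
    nlinarith
  have hw : ∀ n, |((G : ℝ) + 1) ^ 2 * ind {n | g < r A h n} n + (l * g) * ind {n | r A h n < l} n| ≤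
      ((G : ℝ) + 1) ^ 2 + l * g := by
    intro n
    have i1 := ind_nonneg {n | g < r A h n} n
    have i2 := ind_le_one {n | g < r A h n} n
    have i3 := ind_nonneg {n | r A h n < l} n
    have i4 := ind_le_one {n | r A h n < l} n
    have a1 : 0 ≤ ((G : ℝ) + 1) ^ 2 := by positivity
    have a2 : (0 : ℝ) ≤ l * g := by positivity
    rw [abs_of_nonneg (by positivity)]
    nlinarith
  have hineq : ∀ n, 0 ≤ n → (r A h n : ℝ) ^ 2 ≤ ((l : ℝ) + g) * r A h n - l * g +
      (((G : ℝ) + 1) ^ 2 * ind {n | g < r A h n} n + (l * g) * ind {n | r A h n < l} n) := by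
    intro n _
    have i1 := ind_nonneg {n | g < r A h n} n
    have i3 := ind_nonneg {n | r A h n < l} n
    have a1 : 0 ≤ ((G : ℝ) + 1) ^ 2 := by positivity
    have a2 : (0 : ℝ) ≤ l * g := by positivity
    have hr0 : (0 : ℝ) ≤ r A h n := Nat.cast_nonneg _
    have hrG : (r A h n : ℝ) ≤ G := by exact_mod_cast hG n
    by_cases c1 : g < r A h n
    · have e1 : ind {n | g < r A h n} n = 1 := ind_of_mem c1
      have c1' : (g : ℝ) < r A h n := by exact_mod_cast c1
      rw [e1]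
      have b1 : 0 ≤ (l * g : ℝ) * ind {n | r A h n < l} n := mul_nonneg a2 i3
      have b2 : (r A h n : ℝ) ^ 2 ≤ (G : ℝ) ^ 2 := pow_le_pow_left₀ hr0 hrG 2
      have b3 : (l : ℝ) * g ≤ (l + g) * r A h n := by nlinarith
      nlinarith
    · by_cases c2 : r A h n < l
      · have e1 : ind {n | r A h n < l} n = 1 := ind_of_mem c2
        have c2' : (r A h n : ℝ) < l := by exact_mod_cast c2
        rw [e1]
        have b1 : 0 ≤ ((G : ℝ) + 1) ^ 2 * ind {n | g < r A h n} n := mul_nonneg a1 i1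
        nlinarith
      · have c1' : (r A h n : ℝ) ≤ g := by exact_mod_cast not_lt.1 c1
        have c2' : (l : ℝ) ≤ r A h n := by exact_mod_cast not_lt.1 c2
        have b1 : 0 ≤ ((G : ℝ) + 1) ^ 2 * ind {n | g < r A h n} n := mul_nonneg a1 i1
        have b2 : 0 ≤ (l * g : ℝ) * ind {n | r A h n < l} n := mul_nonneg a2 i3
        nlinarith
  have h1 := main_h A hA h hh G hG ((l : ℝ) + g) (l * g) _ _ hw 0 hineq (ρ / 4) (by positivity)
  have h2 := abel_of_cnt {n | r A h n < l} d (ρ / 4 / (l * g)) (by positivity) hcnt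
  have h3 : ∀ᶠ q : ℝ in 𝓝[<] 1, ρ / (2 * ((G : ℝ) + 1) ^ 2) ≤ Ab (ind {n | g < r A h n}) q := by
    filter_upwards [h1, h2, Pool.Agent.TH854.BV.eventually_Ioo] with q h1 h2 hq
    rw [Ab_add (V := ((G : ℝ) + 1) ^ 2) (W := l * g) _ _ hq.1.le hq.2, Ab_smul, Ab_smul] at h1
    · have h3 : (l * g : ℝ) * Ab (ind {n | r A h n < l}) q ≤ l * g * d + ρ / 4 := by
        calc (l * g : ℝ) * Ab (ind {n | r A h n < l}) q ≤ l * g * (d + ρ / 4 / (l * g)) :=
              mul_le_mul_of_nonneg_left h2 (by positivity)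
          _ = l * g * d + ρ / 4 := by field_simp
      have hc : cst h = c h := rfl
      rw [hc] at h1
      rw [div_le_iff₀ (by positivity)]
      linarith
    · intro n
      have i1 := ind_nonneg {n | g < r A h n} n
      have i2 := ind_le_one {n | g < r A h n} n
      rw [abs_of_nonneg (by positivity)]
      have a1 : 0 ≤ ((G : ℝ) + 1) ^ 2 := by positivity
      nlinarith
    · intro n
      have i1 := ind_nonneg {n | r A h n < l} n
      have i2 := ind_le_one {n | r A h n < l} n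
      rw [abs_of_nonneg (by positivity)]
      have a2 : (0 : ℝ) ≤ l * g := by positivity
      nlinarith
  obtain ⟨δ, hδ⟩ : ∃ δ : ℝ, δ = ρ / (2 * ((G : ℝ) + 1) ^ 2) := ⟨_, rfl⟩
  have hδ0 : 0 < δ := by rw [hδ]; positivity
  rw [← hδ] at h3
  have h4 := cnt_of_abel {n | g < r A h n} δ (2 / δ) (by positivity) h3
  have h5 : Real.exp (-(2 / δ)) < δ := by
    rw [Real.exp_neg]
    have h6 := Real.add_one_le_exp (2 / δ)
    have h7 : 1 / δ < Real.exp (2 / δ) := by
      have h8 : 1 / δ ≤ 2 / δ := by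
        apply div_le_div_of_nonneg_right (by norm_num) hδ0.le
      linarith
    rw [inv_lt_comm₀ (Real.exp_pos _) hδ0]
    simpa using h7
  have h6 : 0 < (δ - Real.exp (-(2 / δ))) / (2 / δ) := div_pos (by linarith) (by positivity)
  refine lt_of_lt_of_le h6 ?_
  apply le_liminf_of_le
  · exact (isBoundedUnder_of ⟨1, fun N => quot_le_one _ N⟩ :
      IsBoundedUnder (· ≤ ·) atTop _).isCoboundedUnder_flip
  · filter_upwards [h4, eventually_gt_atTop 0] with N h7 h8
    have h9 : (0 : ℝ) < N := by exact_mod_cast h8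
    rw [le_div_iff₀ h9]
    exact h7

/-- a set with `r_{A,h}(n) > 0` for all large `n` is infinite -/
lemma infinite_of_pos (h : ℕ) (A : Set ℕ) (N₀ : ℕ) (hN : ∀ n, N₀ ≤ n → 1 ≤ r A h n) :
    A.Infinite := by
  intro hfin
  obtain ⟨B, hB⟩ := hfin.bddAbove
  have h1 := hN (max N₀ (h * B + 1)) (le_max_left _ _)
  have h2 : {s : Multiset ℕ | Multiset.card s = h ∧ (∀ a ∈ s, a ∈ A) ∧
      s.sum = max N₀ (h * B + 1)}.Nonempty :=
    Set.nonempty_of_ncard_ne_zero (show r A h (max N₀ (h * B + 1)) ≠ 0 by omega)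
  obtain ⟨s, hs1, hs2, hs3⟩ := h2
  have h3 : s.sum ≤ Multiset.card s • B :=
    Multiset.sum_le_card_nsmul s B (fun a ha => hB (hs2 a ha))
  rw [smul_eq_mul, hs1] at h3
  have h4 : h * B + 1 ≤ max N₀ (h * B + 1) := le_max_right _ _
  omega

/-- the gap between lower and upper limit -/
theorem gap (h : ℕ) (hh : 2 ≤ h) (A : Set ℕ) (l g : ℕ) (hl : 1 ≤ l)
    (hN : ∃ N, ∀ n, N ≤ n → l ≤ r A h n ∧ r A h n ≤ g) : √(c h) ≤ √g - √l := by
  obtain ⟨N₀, hN⟩ := hN
  have hlg : l ≤ g := (hN N₀ le_rfl).1.trans (hN N₀ le_rfl).2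
  have hA : A.Infinite := infinite_of_pos h A N₀ (fun n hn => hl.trans (hN n hn).1)
  by_contra hcon
  rw [not_le] at hcon
  have hc0 : 0 ≤ c h := by
    have := cst_ge_two h hh
    change 0 ≤ cst h
    linarith
  have hc1 : c h < 1 := cst_lt_one h
  have hl0 : (1 : ℝ) ≤ l := by exact_mod_cast hl
  have hlg0 : (l : ℝ) ≤ g := by exact_mod_cast hlg
  have hg0 : (1 : ℝ) ≤ g := hl0.trans hlg0
  obtain ⟨x, hx⟩ : ∃ x, x = √(l : ℝ) := ⟨_, rfl⟩
  obtain ⟨y, hy⟩ : ∃ y, y = √(g : ℝ) := ⟨_, rfl⟩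
  obtain ⟨z, hz⟩ : ∃ z, z = √(c h) := ⟨_, rfl⟩
  have hx2 : x ^ 2 = l := by rw [hx]; exact Real.sq_sqrt (by linarith)
  have hy2 : y ^ 2 = g := by rw [hy]; exact Real.sq_sqrt (by linarith)
  have hz2 : z ^ 2 = c h := by rw [hz]; exact Real.sq_sqrt hc0
  have hx0 : 0 ≤ x := by rw [hx]; exact Real.sqrt_nonneg _
  have hy0 : 0 ≤ y := by rw [hy]; exact Real.sqrt_nonneg _
  have hz0 : 0 ≤ z := by rw [hz]; exact Real.sqrt_nonneg _
  have hxy : x ≤ y := by rw [hx, hy]; exact Real.sqrt_le_sqrt hlg0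
  rw [← hx, ← hy, ← hz] at hcon
  have hzx : z ^ 2 < x ^ 2 := by rw [hz2, hx2]; linarith
  have hpos : (0 : ℝ) < 1 - ((g : ℝ) + l - c h) ^ 2 / (4 * g * l) := by
    rw [sub_pos, div_lt_one (by positivity), ← hx2, ← hy2, ← hz2]
    have h1 : (y - x) ^ 2 < z ^ 2 := by
      apply pow_lt_pow_left₀ hcon (by linarith) (by norm_num)
    have h2 : y ^ 2 + x ^ 2 - z ^ 2 < 2 * x * y := by nlinarith
    have h3 : 0 ≤ y ^ 2 + x ^ 2 - z ^ 2 := by nlinarith
    have h4 : (y ^ 2 + x ^ 2 - z ^ 2) ^ 2 < (2 * x * y) ^ 2 := pow_lt_pow_left₀ h2 h3 (by norm_num)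
    nlinarith
  have hG : ∃ G, ∀ n, r A h n ≤ G := by
    refine ⟨g + ∑ n ∈ Finset.range N₀, r A h n, fun n => ?_⟩
    by_cases hn : n < N₀
    · have := Finset.single_le_sum (f := fun n => r A h n) (s := Finset.range N₀)
        (fun _ _ => Nat.zero_le _) (Finset.mem_range.2 hn)
      omega
    · have := (hN n (by omega)).2
      omega
  have hu : upperDensity {n | r A h n < l} = 0 := upper_zero (N₀ := N₀) (by
    intro n hn hmem
    have h1 := (hN n hn).1
    have h2 : r A h n < l := hmem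
    omega)
  have hlo : lowerDensity {n | g < r A h n} = 0 := lower_zero (N₀ := N₀) (by
    intro n hn hmem
    have h1 := (hN n hn).2
    have h2 : g < r A h n := hmem
    omega)
  have := density_gap h hh A hA hG l g hl hlg (by rw [hu]; exact hpos)
  rw [hlo] at this
  exact lt_irrefl _ this

lemma pos_of_basis (h : ℕ) (A : Set ℕ) (hA : IsAsymptoticBasis A h) :
    ∃ N, ∀ n, N ≤ n → 1 ≤ r A h n := by
  obtain ⟨N, hN⟩ := hA
  refine ⟨N, fun n hn => ?_⟩
  obtain ⟨s, hs⟩ := hN n hn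
  have hfin : {s : Multiset ℕ | Multiset.card s = h ∧ (∀ a ∈ s, a ∈ A) ∧ s.sum = n}.Finite :=
    Pool.Agent.H396R2.rep_set_finite A h n
  exact (Set.ncard_pos hfin).2 ⟨s, hs⟩

/-- **Theorem.** Let `h ≥ 2` and `A ⊆ ℕ`.
1. Every asymptotic basis `A` of order `h` has `r_{A,h}(n) ≥ 4` for infinitely many `n`.
2. (Quantitative form.) Let `c_h = 1 - 1 / C(h, ⌊h/2⌋)`, let `A` be infinite, let `1 ≤ l ≤ g`, and
let the upper density of `{n : r_{A,h}(n) < l}` be smaller than `1 - (g + l - c_h)² / (4 g l)`. Then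
`r_{A,h}(n) > g` for infinitely many `n`, and if `r_{A,h}` is bounded, then `{n : r_{A,h}(n) > g}` has
positive lower density.

For `h ≥ 3` one has `c_h ≥ 2/3`, so part 2 applies with `l = 1`, `g = 3` to all `A` for which
`{n : r_{A,h}(n) = 0}` has upper density `< 2/27`, in particular to all asymptotic bases. -/
theorem result (h : ℕ) (hh : 2 ≤ h) (A : Set ℕ) :
    (IsAsymptoticBasis A h → ∀ N, ∃ n, N ≤ n ∧ 4 ≤ r A h n) ∧
    (A.Infinite → ∀ l g : ℕ, 1 ≤ l → l ≤ g →
      upperDensity {n | r A h n < l} < 1 - ((g : ℝ) + l - c h) ^ 2 / (4 * g * l) →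
      (∀ N, ∃ n, N ≤ n ∧ g < r A h n) ∧
      ((∃ G, ∀ n, r A h n ≤ G) → 0 < lowerDensity {n | g < r A h n})) := by
  constructor
  · intro hA N
    obtain ⟨N₀, hN₀⟩ := pos_of_basis h A hA
    rcases Nat.lt_or_ge 2 h with h3 | h3
    · by_contra hcon
      push Not at hcon
      have h4 := gap h hh A 1 3 le_rfl ⟨max N N₀, fun n hn =>
        ⟨hN₀ n (le_trans (le_max_right _ _) hn),
          Nat.lt_succ_iff.1 (hcon n (le_trans (le_max_left _ _) hn))⟩⟩
      have h5 : 2 / 3 ≤ c h := cst_ge_three h h3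
      have h6 : √(2 / 3) ≤ √(c h) := Real.sqrt_le_sqrt h5
      have h7 : (8 / 10 : ℝ) ≤ √(2 / 3) := Real.le_sqrt_of_sq_le (by norm_num)
      have h8 : √((3 : ℕ) : ℝ) ≤ 1733 / 1000 := by
        rw [Real.sqrt_le_left (by norm_num)]
        norm_num
      have h9 : (8 / 10 : ℝ) ≤ √(c h) := h7.trans h6
      have h10 : √((1 : ℕ) : ℝ) = 1 := by simp
      have h11 := h9.trans h4
      rw [h10] at h11
      linarith
    · obtain rfl : h = 2 := by omega
      exact four_two A ⟨N₀, fun n hn => hN₀ n hn⟩ N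
  · intro hA l g hl hlg hd
    refine ⟨fun N => ?_, fun hb => density_gap h hh A hA hb l g hl hlg hd⟩
    by_contra hcon
    push Not at hcon
    have hG : ∃ G, ∀ n, r A h n ≤ G := by
      refine ⟨g + ∑ n ∈ Finset.range N, r A h n, fun n => ?_⟩
      by_cases hn : n < N
      · have := Finset.single_le_sum (f := fun n => r A h n) (s := Finset.range N)
          (fun _ _ => Nat.zero_le _) (Finset.mem_range.2 hn)
        omega
      · have := hcon n (by omega)
        omega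
    have h1 := density_gap h hh A hA hG l g hl hlg hd
    have hlo : lowerDensity {n | g < r A h n} = 0 := lower_zero (N₀ := N) (by
      intro n hn hmem
      have h1 := hcon n hn
      have h2 : g < r A h n := hmem
      omega)
    rw [hlo] at h1
    exact lt_irrefl _ h1

end Pool.Agent.Results.MP_d5a1e1_nt.FourRepresentations
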