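import Pool.Agent.K9h24.NC15

/-!
# MP_d5a1e1_nt: a near-counterexample for every order `h`

For every `h ≥ 2` there is an asymptotic basis `A` of order `h`, with at most `C x ^ (1 / h)`
elements up to `x`, such that `r_{A,h}(n) ≤ C (log n) ^ C` for all `n ≥ 3` and `r_{A,h}(n) = 1` for
all `n` outside a set of natural density `0`.

Construction: blocks of base `b ^ h`, `b` a prime, `b ≥ 3 h + 2`. The elements of type `i < h` have
the digit `b ^ i d` (`0 ≤ d < b`) in each block, translated by a hash value which depends on the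
type and on all the lower digits `d`; from some block on (the place depends on the lower digits) the
hash values are zero. With all types used once every residue modulo `b ^ (h J)` has exactly one
representation. The hash values are chosen one level after the other (exponential moments), such
that all other patterns of types have few representations and, together, represent few residues.
-/

set_option autoImplicit false

open Filter Topology

namespace Pool.Agent.Results.MP_d5a1e1_nt.NearCounterexample

/-- the unordered representation function `r_{A,h}(n)` -/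
noncomputable def r (A : Set ℕ) (h n : ℕ) : ℕ :=
  Set.ncard {s : Multiset ℕ | Multiset.card s = h ∧ (∀ a ∈ s, a ∈ A) ∧ s.sum = n}

/-- `A` is an asymptotic basis of order `h`: all large `n` are sums of `h` elements of `A` -/
def IsAsymptoticBasis (A : Set ℕ) (h : ℕ) : Prop :=
  ∃ N : ℕ, ∀ n : ℕ, N ≤ n → ∃ s : Multiset ℕ, Multiset.card s = h ∧ (∀ a ∈ s, a ∈ A) ∧ s.sum = n

/-- `B` has natural density `0` -/
def DensityZero (B : Set ℕ) : Prop :=
  Tendsto (fun N : ℕ => ((B ∩ Set.Iio N).ncard : ℝ) / N) atTop (𝓝 0)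

/-- For every `h ≥ 2` there is a thin asymptotic basis `A` of order `h` with `r_{A,h}(n) = 1` for
almost all `n` and `r_{A,h}(n) ≤ C (log n) ^ C` for all `n ≥ 3`. -/
theorem result (h : ℕ) (hh : 2 ≤ h) :
    ∃ (A : Set ℕ) (C : ℕ), IsAsymptoticBasis A h ∧
      (∀ x : ℕ, 1 ≤ x → ((A ∩ Set.Iic x).ncard : ℝ) ≤ C * (x : ℝ) ^ ((1 : ℝ) / h)) ∧
      (∀ n : ℕ, 3 ≤ n → (r A h n : ℝ) ≤ C * Real.log n ^ C) ∧
      DensityZero {n | r A h n ≠ 1} := by
  obtain ⟨b, hb, hbp⟩ := Nat.exists_infinite_primes (3 * h + 2)
  have hb2 : 2 ≤ b := by omega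
  have hhb : h ≤ b ^ h := by
    have h1 : h < 2 ^ h := Nat.lt_two_pow_self
    exact h1.le.trans (Nat.pow_le_pow_left hb2 h)
  obtain ⟨H, hPhi, hDr, hCC⟩ := Pool.Agent.K9h24.NC.hash_exists hbp hb hh
  obtain ⟨C, hC⟩ := Pool.Agent.K9h24.NC.polylog hb2 (by omega)
    (Pool.Agent.K9h24.NC.gg_ge hb2 hh) H hPhi
  refine ⟨Pool.Agent.K9h24.NC.AA h b H, 4 * h * b + C, ?_, ?_, ?_, ?_⟩
  · exact Pool.Agent.K9h24.NC.basis_all hb2 (by omega) hhb H
  · intro x hx
    refine (Pool.Agent.K9h24.NC.AA_thin hb2 (by omega) H x hx).trans ?_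
    apply mul_le_mul_of_nonneg_right _ (by positivity)
    exact_mod_cast Nat.le_add_right _ _
  · intro n hn
    have hn0 : (0 : ℝ) < n := by
      have : 0 < n := by omega
      exact_mod_cast this
    have hL : 1 ≤ Real.log n := by
      rw [Real.le_log_iff_exp_le hn0]
      have h2 : Real.exp 1 < 2.7182818286 := Real.exp_one_lt_d9
      have h3 : (3 : ℝ) ≤ n := by exact_mod_cast hn
      linarith
    refine le_trans (hC n hn) ?_
    apply mul_le_mul
    · exact_mod_cast Nat.le_add_left _ _
    · exact pow_le_pow_right₀ hL (Nat.le_add_left _ _)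
    · exact pow_nonneg (by linarith) _
    · exact Nat.cast_nonneg _
  · exact Pool.Agent.K9h24.NC.density_zero hb2 (by omega) hhb H hCC hDr

end Pool.Agent.Results.MP_d5a1e1_nt.NearCounterexample
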