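import Pool.Agent.K9h24.Pow8

/-!
# MP_d5a1e1_nt: sets with a positive proportion of elements near `h`-th powers

Let `h ≥ 3`, `F` a finite set of positive reals, `B` real and `c > 0`. If for infinitely many `x` at
least `c x ^ (1/h)` elements `a ≤ x` of `A` lie within `B` of a number `α n ^ h` with `α ∈ F` and
`n ∈ ℕ`, then `r_{A,h}` is unbounded. In particular the number of representations as a sum of `h`
`h`-th powers of elements of a set `S` of positive upper density is unbounded, and in a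
counterexample `A` to the problem only `o(x ^ (1/h))` of the elements below `x` are of this kind.

Method: let `Q = ∏ p ^ h` over a large finite set of primes and suppose that the representation
function is bounded, so that the density function `g` of `S` modulo `Q` has few large Fourier
coefficients along the `h`-th powers. For suitable `p_1, …, p_t` the solutions of
`x_1 ^ h + … + x_h ^ h ≡ 0 (mod (p_1 ⋯ p_t) ^ h)` in which all the `x_i` are divisible by
`p_1 ⋯ p_s` and prime to `p_{s+1} ⋯ p_t` are for every `s ≤ t` as frequent, up to a constant, as on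
average. The primes are chosen one after the other with a Turán–Kubilius argument that keeps the
density of `S` on the multiples of `p_1 ⋯ p_s`, after removal of the primes that occur in the few
large Fourier coefficients; `h ≥ 3` makes the other coefficients negligible. So some sums have `t`
times as many representations as the average.
-/

set_option autoImplicit false

open Filter

namespace Pool.Agent.Results.MP_d5a1e1_nt.NearPowers

/-- the unordered representation function `r_{A,h}(n)` -/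
noncomputable def r (A : Set ℕ) (h n : ℕ) : ℕ :=
  Set.ncard {s : Multiset ℕ | Multiset.card s = h ∧ (∀ a ∈ s, a ∈ A) ∧ s.sum = n}

theorem result (h : ℕ) (hh : 3 ≤ h) (F : Finset ℝ) (hF : ∀ α ∈ F, 0 < α) (B c : ℝ) (hc : 0 < c)
    (A : Set ℕ)
    (hA : ∃ᶠ x : ℕ in atTop, c * (x : ℝ) ^ ((1 : ℝ) / h) ≤
      ({a : ℕ | a ∈ A ∧ a ≤ x ∧ ∃ α ∈ F, ∃ n : ℕ, |(a : ℝ) - α * (n : ℝ) ^ h| ≤ B}.ncard : ℝ)) :
    ∀ K : ℕ, ∃ n : ℕ, K ≤ r A h n := by
  intro K
  by_contra hcon
  push Not at hcon
  have hB : B ≤ (⌈B⌉₊ : ℝ) := Nat.le_ceil B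
  refine Pool.Agent.K9h24.Pow.near_powers hh F hF A ⌈B⌉₊ hc ?_ K (fun n => (hcon n).le)
  refine hA.mono fun x hx => hx.trans ?_
  have hsub : {a : ℕ | a ∈ A ∧ a ≤ x ∧ ∃ α ∈ F, ∃ n : ℕ, |(a : ℝ) - α * (n : ℝ) ^ h| ≤ B} ⊆
      {a : ℕ | a ∈ A ∧ a ≤ x ∧ ∃ α ∈ F, ∃ n : ℕ,
        |(a : ℝ) - α * (n : ℝ) ^ h| ≤ ((⌈B⌉₊ : ℕ) : ℝ)} := by
    rintro a ⟨h1, h2, α, h3, n, h4⟩
    exact ⟨h1, h2, α, h3, n, h4.trans hB⟩
  have hfin : {a : ℕ | a ∈ A ∧ a ≤ x ∧ ∃ α ∈ F, ∃ n : ℕ,
      |(a : ℝ) - α * (n : ℝ) ^ h| ≤ ((⌈B⌉₊ : ℕ) : ℝ)}.Finite :=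
    (Set.finite_Iic x).subset fun a ha => ha.2.1
  exact_mod_cast Set.ncard_le_ncard hsub hfin

end Pool.Agent.Results.MP_d5a1e1_nt.NearPowers
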