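import Pool.Agent.K9h24.Sing7

/-!
# MP_d5a1e1_nt: bounded representation functions of order `h` are far from all functions with
singular spectrum

Let `c_h = 1 - 1 / C(h, ⌊h/2⌋)`, so `c_2 = 1/2`, `c_3 = 2/3`, and `c_h → 1`.  If the unordered
representation function `r_{A,h}` of an asymptotic basis of order `h` (or of any set for which
`r_{A,h}` has positive lower mean) is bounded, then no function with singular spectrum (constant,
periodic, almost periodic functions, the Thue-Morse sequence, ...) is within mean square distance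
`κ < c_h`, relative to the mean of `r_{A,h}`.

Method.  Let `f` be the generating function of `A` on the circle of radius `x`, `X = ∑ x ^ (2 a)`, and
`h = k + m` with `m = ⌊h/2⌋`.  Write `E_k conj(E_m) = T + U`, where `T` collects the pairs of a
`k`-set and an `m`-set which have a common element.  Both have nonnegative coefficients, so
`∫ (|T|² + 2 Re T conj U) ≥ ∫ |T|²`, which is at least `C (C - 1) X ^ h / h!` (`C = C(h, m)`) by
counting trivial solutions, while the integrand is `O(X |f| ^ (2 h - 2) + ...)`, of lower degree in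
`|f|` than `|E_k E_m|²`, so that small sets of angles do not contribute.
-/

set_option autoImplicit false

open Filter Topology MeasureTheory Finset

namespace Pool.Agent.Results.MP_d5a1e1_nt.SingularSpectrumDistance

local instance twoPiPos : Fact (0 < 2 * Real.pi) := Fact.mk Real.two_pi_pos

/-- the unordered representation function `r_{A,h}(n)` -/
noncomputable def r (A : Set ℕ) (h n : ℕ) : ℕ :=
  Set.ncard {s : Multiset ℕ | Multiset.card s = h ∧ (∀ a ∈ s, a ∈ A) ∧ s.sum = n}

/-- `r_{A,h}` has positive lower mean; every asymptotic basis of order `h` has this property -/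
def PositiveMean (A : Set ℕ) (h : ℕ) : Prop :=
  ∃ c₀ : ℝ, 0 < c₀ ∧ ∀ᶠ N : ℕ in atTop, c₀ * N ≤ ∑ n ∈ range N, (r A h n : ℝ)

/-- the constant `c_h = 1 - 1 / C(h, ⌊h/2⌋)` -/
noncomputable def c (h : ℕ) : ℝ := 1 - 1 / (h.choose (h / 2) : ℝ)

/-- `P` has singular spectrum: the limits `lim_N (1/N) ∑_{n<N} P(n+k) P(n)`, `k ≥ 0`, exist and are
the Fourier coefficients `∫ e^{ikx} dσ(x)` of a finite measure `σ` on the circle `ℝ/2πℤ` that is
singular with respect to Lebesgue measure. -/
def SingSpec (P : ℕ → ℝ) : Prop :=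
  ∃ σ : Measure (AddCircle (2 * Real.pi)), IsFiniteMeasure σ ∧
    Measure.MutuallySingular σ volume ∧
    ∀ k : ℕ, Tendsto (fun N : ℕ => (((∑ n ∈ range N, P (n + k) * P n) / N : ℝ) : ℂ)) atTop
      (𝓝 (∫ x, (fourier (k : ℤ) x : ℂ) ∂σ))

/-- `P` has concentrated generating function: for every `ε > 0` there are `ρ < 1` arbitrarily close
to `1` and a measurable set `V` of angles of measure at most `ε` such that
`(1 - ρ) ∫_{(0,2π] ∖ V} |∑_n P(n) ρ^n e^{inθ}|² dθ ≤ ε`. -/
def Concentrated (P : ℕ → ℝ) : Prop :=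
  ∀ ε : ℝ, 0 < ε → ∃ᶠ ρ : ℝ in 𝓝[<] 1, ∃ V : Set ℝ, MeasurableSet V ∧
    volume V ≤ ENNReal.ofReal ε ∧ (1 - ρ) * ∫ θ in Set.Ioc 0 (2 * Real.pi) \ V,
      ‖∑' n : ℕ, (P n : ℂ) * (ρ * Complex.exp (θ * Complex.I)) ^ n‖ ^ 2 ≤ ε

theorem conc_iff (P : ℕ → ℝ) : Concentrated P ↔ Pool.Agent.H303R3.ET.Conc P := by
  have h : ∀ (ρ θ : ℝ), (ρ * Complex.exp (θ * Complex.I) : ℂ) = circleMap 0 ρ θ := by
    intro ρ θ
    rw [circleMap_zero]
  unfold Concentrated Pool.Agent.H303R3.ET.Conc
  simp_rw [h]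

/-- **Theorem.** Let `h ≥ 2`, let `r_{A,h}` have positive lower mean (for instance, let `A` be an
asymptotic basis of order `h`), let `P : ℕ → ℝ` have singular spectrum or, more generally,
concentrated generating function, and let `κ < c_h = 1 - 1 / C(h, ⌊h/2⌋)`.  If
`∑_{n<N} (r_{A,h}(n) - P(n))² ≤ κ ∑_{n<N} r_{A,h}(n)` for all large `N`, then `r_{A,h}` is
unbounded. -/
theorem result (h : ℕ) (hh : 2 ≤ h) (A : Set ℕ) (hA : PositiveMean A h) (P : ℕ → ℝ)
    (hP : SingSpec P ∨ Concentrated P) (κ : ℝ) (hκ : κ < c h)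
    (hd : ∀ᶠ N : ℕ in atTop, ∑ n ∈ range N, ((r A h n : ℝ) - P n) ^ 2 ≤
      κ * ∑ n ∈ range N, (r A h n : ℝ)) :
    ∀ K : ℕ, ∃ n : ℕ, K < r A h n := by
  by_contra hcon
  push Not at hcon
  obtain ⟨K0, hK0⟩ := hcon
  obtain ⟨c0, hc0, hmean⟩ := hA
  have hconc : Pool.Agent.H303R3.ET.Conc P := by
    rcases hP with ⟨σ, hfin, hσ, hs⟩ | hP
    · exact Pool.Agent.H303R3.ET.spec_conc (σ := σ) hs hσ
    · exact (conc_iff P).mp hP
  have e : (h - h / 2) + h / 2 = h := Nat.sub_add_cancel (Nat.div_le_self h 2)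
  have hr : r = Pool.Agent.H396R2.rep := rfl
  rw [hr] at *
  have hκ' : κ < 1 - 1 / (((h - h / 2) + h / 2).choose (h / 2) : ℝ) := by
    rw [e]; exact hκ
  refine Pool.Agent.K9h24.Sing.sing_main_h A (h - h / 2) (h / 2) (by omega) (by omega) c0 hc0 ?_ K0 ?_
    P hconc κ hκ' ?_
  · rw [e]; exact hmean
  · rw [e]; exact hK0
  · rw [e]; exact hd

end Pool.Agent.Results.MP_d5a1e1_nt.SingularSpectrumDistance
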